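import Mathlib
import Pool.Agent.Helper21.HLFDefs

/-!
# Homological Lefschetz fibrations with arbitrary vanishing cycles

As `Pool.Agent.Helper21.HLF.Fibration`, but the vanishing cycles need not be primitive; the value
`0` (a separating vanishing cycle) is allowed.
-/

namespace Pool.Agent.Helper81.LFC

open Pool.Agent.Helper21.HLF

/-- The homology data of a genus `g` Lefschetz fibration over the 2-sphere: the classes of the
vanishing cycles `v 0, ..., v (n-1)` in `H_1` of the fibre (`0` for a separating one), such that the
product of the Picard-Lefschetz transvections `T_{v 0} ∘ ... ∘ T_{v (n-1)}` is the identity. -/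
structure Fib (g : ℕ) where
  /-- number of singular fibres -/
  n : ℕ
  /-- vanishing cycles -/
  v : Fin n → Lat g
  monodromy : ∀ x : Lat g, (List.ofFn v).foldr transv x = x

/-- The intersection pairing on `H_1` of the fibre with real coefficients. -/
def omR {g : ℕ} (u v : Fin g → ℝ × ℝ) : ℝ := ∑ k, ((u k).1 * (v k).2 - (u k).2 * (v k).1)

/-- real coefficients -/
def toR {g : ℕ} (u : Lat g) : Fin g → ℝ × ℝ := fun k => (((u k).1 : ℝ), ((u k).2 : ℝ))

namespace Fib

variable {g : ℕ} (F : Fib g)

/-- `x` is a cycle: the combination `∑ x_i v_i` of vanishing cycles is zero in homology with real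
coefficients, so that the corresponding combination of thimbles closes up. -/
def IsCycle (x : Fin F.n → ℝ) : Prop :=
  ∀ k, ∑ i, x i * ((F.v i k).1 : ℝ) = 0 ∧ ∑ i, x i * ((F.v i k).2 : ℝ) = 0

/-- The intersection form on combinations of thimbles: every thimble has square `-1` and
two thimbles `i < j` contribute the intersection number of their vanishing cycles. -/
noncomputable def form (x : Fin F.n → ℝ) : ℝ :=
  (∑ i, ∑ j, if i < j then x i * x j * (om (F.v i) (F.v j) : ℝ) else 0) - ∑ i, x i ^ 2

/-- The largest dimension of a space of cycles on which the intersection form is positive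
definite. -/
noncomputable def posIndex : ℕ :=
  sSup {d : ℕ | ∃ f : (Fin d → ℝ) →ₗ[ℝ] (Fin F.n → ℝ),
    (∀ y, F.IsCycle (f y)) ∧ ∀ y, y ≠ 0 → 0 < F.form (f y)}

/-- The largest dimension of a space of cycles on which the intersection form is negative
definite. -/
noncomputable def negIndex : ℕ :=
  sSup {d : ℕ | ∃ f : (Fin d → ℝ) →ₗ[ℝ] (Fin F.n → ℝ),
    (∀ y, F.IsCycle (f y)) ∧ ∀ y, y ≠ 0 → F.form (f y) < 0}

/-- `b^+`: the cycles of thimbles and the hyperbolic pair (fibre, section). -/
noncomputable def bPlus : ℕ := F.posIndex + 1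

/-- `b^-`: the cycles of thimbles and the hyperbolic pair (fibre, section). -/
noncomputable def bMinus : ℕ := F.negIndex + 1

/-- The real classes of `H_1` of the fibre orthogonal to all vanishing cycles. -/
noncomputable def orth : Submodule ℝ (Fin g → ℝ × ℝ) where
  carrier := {x | ∀ i, omR (toR (F.v i)) x = 0}
  add_mem' := by
    intro a b ha hb i
    have h1 := ha i
    have h2 := hb i
    simp only [omR] at h1 h2 ⊢
    have : ∀ k, ((toR (F.v i) k).1 * ((a + b) k).2 - (toR (F.v i) k).2 * ((a + b) k).1) =
        ((toR (F.v i) k).1 * (a k).2 - (toR (F.v i) k).2 * (a k).1) +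
        ((toR (F.v i) k).1 * (b k).2 - (toR (F.v i) k).2 * (b k).1) := by
      intro k
      simp only [Pi.add_apply, Prod.fst_add, Prod.snd_add]
      ring
    rw [Finset.sum_congr rfl fun k _ => this k, Finset.sum_add_distrib, h1, h2, add_zero]
  zero_mem' := by
    intro i
    simp [omR]
  smul_mem' := by
    intro c a ha i
    have h1 := ha i
    simp only [omR] at h1 ⊢
    have : ∀ k, ((toR (F.v i) k).1 * ((c • a) k).2 - (toR (F.v i) k).2 * ((c • a) k).1) =
        c * ((toR (F.v i) k).1 * (a k).2 - (toR (F.v i) k).2 * (a k).1) := by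
      intro k
      simp only [Pi.smul_apply, Prod.smul_fst, Prod.smul_snd, smul_eq_mul]
      ring
    rw [Finset.sum_congr rfl fun k _ => this k, ← Finset.mul_sum, h1, mul_zero]

/-- First Betti number: `H^1` of the total space consists of the classes of the fibre that
vanish on all vanishing cycles. -/
noncomputable def b1 : ℕ := Module.finrank ℝ F.orth

/-- Euler characteristic `4 - 4g + n`, which is `c_2`. -/
def c2 : ℤ := 4 - 4 * (g : ℤ) + F.n

/-- Signature. -/
noncomputable def sig : ℤ := (F.bPlus : ℤ) - F.bMinus

/-- `c_1^2 = 2 e + 3 σ`. -/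
noncomputable def c1sq : ℤ := 2 * F.c2 + 3 * F.sig

end Fib

end Pool.Agent.Helper81.LFC
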