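import Mathlib
import Pool.Agent.Helper81.LFC.Defs

/-!
# Lefschetz fibrations with many pairwise orthogonal vanishing cycles
-/

set_option autoImplicit false

namespace Pool.Agent.Helper81.LFC

open Pool.Agent.Helper21.HLF Finset

variable {g : ℕ}

/-- the real homology of the fibre -/
abbrev E (g : ℕ) := Fin g → ℝ × ℝ

lemma omR_toR (u v : Lat g) : omR (toR u) (toR v) = (om u v : ℝ) := by
  unfold omR om toR
  push_cast
  rfl

lemma omR_add_left (a b x : E g) : omR (a + b) x = omR a x + omR b x := by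
  unfold omR
  rw [← sum_add_distrib]
  refine sum_congr rfl fun k _ => ?_
  simp only [Pi.add_apply, Prod.fst_add, Prod.snd_add]
  ring

lemma omR_add_right (x a b : E g) : omR x (a + b) = omR x a + omR x b := by
  unfold omR
  rw [← sum_add_distrib]
  refine sum_congr rfl fun k _ => ?_
  simp only [Pi.add_apply, Prod.fst_add, Prod.snd_add]
  ring

lemma omR_smul_left (c : ℝ) (a x : E g) : omR (c • a) x = c * omR a x := by
  unfold omR
  rw [mul_sum]
  refine sum_congr rfl fun k _ => ?_
  simp only [Pi.smul_apply, Prod.smul_fst, Prod.smul_snd, smul_eq_mul]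
  ring

lemma omR_smul_right (c : ℝ) (x a : E g) : omR x (c • a) = c * omR x a := by
  unfold omR
  rw [mul_sum]
  refine sum_congr rfl fun k _ => ?_
  simp only [Pi.smul_apply, Prod.smul_fst, Prod.smul_snd, smul_eq_mul]
  ring

lemma omR_skew (a b : E g) : omR a b = - omR b a := by
  unfold omR
  rw [← sum_neg_distrib]
  refine sum_congr rfl fun k _ => ?_
  ring

lemma omR_self (a : E g) : omR a a = 0 := by
  have := omR_skew a a
  linarith

/-- the pairing as a bilinear form -/
noncomputable def omB (g : ℕ) : LinearMap.BilinForm ℝ (E g) :=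
  LinearMap.mk₂ ℝ omR omR_add_left omR_smul_left omR_add_right omR_smul_right

lemma omB_apply (a b : E g) : omB g a b = omR a b := rfl

lemma omB_refl : (omB g).IsRefl := by
  intro a b h
  rw [omB_apply] at h ⊢
  rw [omR_skew, h, neg_zero]

lemma omR_nondeg {x : E g} (h : ∀ y, omR x y = 0) : x = 0 := by
  funext k
  have h1 := h (Pi.single k (0, 1))
  have h2 := h (Pi.single k (1, 0))
  unfold omR at h1 h2
  rw [sum_eq_single k] at h1 h2
  · simp at h1 h2
    exact Prod.ext h1 h2
  · intro b _ hb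
    simp [Pi.single_eq_of_ne hb]
  · intro h; exact absurd (mem_univ k) h
  · intro b _ hb
    simp [Pi.single_eq_of_ne hb]
  · intro h; exact absurd (mem_univ k) h

lemma omB_nondeg : (omB g).Nondegenerate := by
  constructor
  · intro x hx
    exact omR_nondeg hx
  · intro x hx
    refine omR_nondeg fun y => ?_
    have := hx y
    rw [omB_apply] at this
    rw [omR_skew, this, neg_zero]

lemma finrank_E : Module.finrank ℝ (E g) = 2 * g := by
  simp [Module.finrank_pi_fintype]
  ring

/-- isotropic subspaces have dimension at most `g` -/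
lemma finrank_isotropic (W : Submodule ℝ (E g)) (h : ∀ a ∈ W, ∀ b ∈ W, omR a b = 0) :
    Module.finrank ℝ W ≤ g := by
  have h1 := LinearMap.BilinForm.finrank_orthogonal (omB_nondeg (g := g)) W
  have h2 : W ≤ (omB g).orthogonal W := by
    intro x hx y hy
    exact h y hy x hx
  have h3 := Submodule.finrank_mono h2
  rw [h1, finrank_E] at h3
  have h4 : Module.finrank ℝ W ≤ 2 * g := by
    rw [← finrank_E (g := g)]
    exact Submodule.finrank_le _
  omega

/-! ## Transvections -/

/-- real transvections -/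
noncomputable def tL (v : E g) : E g →ₗ[ℝ] E g := LinearMap.id + (omB g v).smulRight v

lemma tL_apply (v x : E g) : tL v x = x + omR v x • v := rfl

lemma tL_toR (v x : Lat g) : tL (toR v) (toR x) = toR (transv v x) := by
  rw [tL_apply, omR_toR]
  funext k
  unfold toR transv
  simp only [Pi.add_apply, Pi.smul_apply, Prod.smul_mk, smul_eq_mul, Prod.mk_add_mk,
    Prod.fst_add, Prod.snd_add, Prod.smul_fst, Prod.smul_snd, Int.cast_add, Int.cast_mul]

/-- products of transvections -/
noncomputable def YL (l : List (E g)) : E g →ₗ[ℝ] E g :=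
  l.foldr (fun v f => tL v ∘ₗ f) LinearMap.id

lemma YL_nil : YL ([] : List (E g)) = LinearMap.id := rfl

lemma YL_cons (v : E g) (l : List (E g)) : YL (v :: l) = tL v ∘ₗ YL l := rfl

lemma YL_toR (l : List (Lat g)) (x : Lat g) : YL (l.map toR) (toR x) = toR (l.foldr transv x) := by
  induction l with
  | nil => rfl
  | cons v l ih =>
    rw [List.map_cons, YL_cons, LinearMap.comp_apply, ih, tL_toR, List.foldr_cons]

namespace Fib

variable (F : Fib g)

/-- the list of vanishing cycles -/
noncomputable def ls : List (E g) := (List.ofFn F.v).map toR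

lemma length_ls : F.ls.length = F.n := by
  simp [ls]

lemma ls_getElem (i : ℕ) (h : i < F.n) :
    F.ls[i]'(by rw [F.length_ls]; exact h) = toR (F.v ⟨i, h⟩) := by
  simp [ls]

lemma YL_ls : YL F.ls = LinearMap.id := by
  refine LinearMap.pi_ext' fun k => ?_
  refine LinearMap.prod_ext ?_ ?_
  · refine LinearMap.ext_ring ?_
    have h := YL_toR (List.ofFn F.v) (Pi.single k (1, 0))
    rw [F.monodromy] at h
    have e : toR (Pi.single k ((1 : ℤ), (0 : ℤ))) = (Pi.single k ((1 : ℝ), (0 : ℝ)) : E g) := by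
      funext l
      unfold toR
      by_cases hl : l = k
      · subst hl; simp
      · simp [Pi.single_eq_of_ne hl]
    rw [e] at h
    exact h
  · refine LinearMap.ext_ring ?_
    have h := YL_toR (List.ofFn F.v) (Pi.single k (0, 1))
    rw [F.monodromy] at h
    have e : toR (Pi.single k ((0 : ℤ), (1 : ℤ))) = (Pi.single k ((0 : ℝ), (1 : ℝ)) : E g) := by
      funext l
      unfold toR
      by_cases hl : l = k
      · subst hl; simp
      · simp [Pi.single_eq_of_ne hl]
    rw [e] at h
    exact h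

/-- partial products -/
noncomputable def Y (j : ℕ) : E g →ₗ[ℝ] E g := YL (F.ls.drop j)

lemma Y_zero : F.Y 0 = LinearMap.id := by
  unfold Y
  rw [List.drop_zero, YL_ls]

lemma Y_n : F.Y F.n = LinearMap.id := by
  unfold Y
  rw [List.drop_eq_nil_of_le (by rw [F.length_ls]), YL_nil]

lemma Y_step (i : Fin F.n) (x : E g) :
    F.Y i x = F.Y (i + 1) x + omR (toR (F.v i)) (F.Y (i + 1) x) • toR (F.v i) := by
  unfold Y
  rw [List.drop_eq_getElem_cons (by rw [F.length_ls]; exact i.2), YL_cons, LinearMap.comp_apply,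
    tL_apply, F.ls_getElem i i.2]

/-- the map from the homology of the fibre to the radical -/
noncomputable def ra : E g →ₗ[ℝ] (Fin F.n → ℝ) :=
  LinearMap.pi fun i => (omB g (toR (F.v i))) ∘ₗ F.Y (i + 1)

lemma ra_apply (x : E g) (i : Fin F.n) : F.ra x i = omR (toR (F.v i)) (F.Y (i + 1) x) := rfl

lemma Y_sum (x : E g) (k : ℕ) (hk : k ≤ F.n) : F.Y (F.n - k) x =
    x + ∑ i : Fin F.n, if F.n - k ≤ i then F.ra x i • toR (F.v i) else 0 := by
  induction k with
  | zero =>
    rw [Nat.sub_zero, Y_n]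
    have : ∑ i : Fin F.n, (if F.n ≤ i then F.ra x i • toR (F.v i) else 0) = 0 :=
      sum_eq_zero fun i _ => if_neg (by omega)
    rw [this, add_zero]
    rfl
  | succ k ih =>
    have ih' := ih (by omega)
    have hj : F.n - (k + 1) < F.n := by omega
    have h1 := F.Y_step ⟨F.n - (k + 1), hj⟩ x
    have h2 : F.n - (k + 1) + 1 = F.n - k := by omega
    dsimp only at h1
    rw [h1, h2, ih', add_assoc]
    congr 1
    have h3 : ∀ i : Fin F.n, (if F.n - (k + 1) ≤ i then F.ra x i • toR (F.v i) else 0) =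
        (if F.n - k ≤ i then F.ra x i • toR (F.v i) else 0) +
        if i = ⟨F.n - (k + 1), hj⟩ then F.ra x i • toR (F.v i) else 0 := by
      intro i
      by_cases hi : i = ⟨F.n - (k + 1), hj⟩
      · rw [if_pos hi, if_pos (by rw [hi]), if_neg (by rw [hi]; dsimp only; omega), zero_add]
      · rw [if_neg hi, add_zero]
        have : (i : ℕ) ≠ F.n - (k + 1) := fun h => hi (Fin.ext h)
        by_cases hi2 : F.n - (k + 1) ≤ i
        · rw [if_pos hi2, if_pos (by omega)]
        · rw [if_neg hi2, if_neg (by omega)]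
    rw [sum_congr rfl fun i _ => h3 i, sum_add_distrib, sum_ite_eq' univ, if_pos (mem_univ _)]
    congr 1
    rw [ra_apply]
    dsimp only
    rw [h2, ← ih']

lemma Y_sum' (x : E g) (j : ℕ) (hj : j ≤ F.n) : F.Y j x =
    x + ∑ i : Fin F.n, if j ≤ i then F.ra x i • toR (F.v i) else 0 := by
  have := F.Y_sum x (F.n - j) (by omega)
  rwa [Nat.sub_sub_self hj] at this

/-- the map whose kernel are the cycles -/
noncomputable def cyc : (Fin F.n → ℝ) →ₗ[ℝ] E g :=
  Fintype.linearCombination ℝ fun i => toR (F.v i)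

lemma cyc_apply (a : Fin F.n → ℝ) : F.cyc a = ∑ i, a i • toR (F.v i) := rfl

lemma isCycle_iff (a : Fin F.n → ℝ) : F.IsCycle a ↔ F.cyc a = 0 := by
  rw [cyc_apply, funext_iff]
  refine forall_congr' fun k => ?_
  rw [Prod.ext_iff, Finset.sum_apply, Prod.fst_sum, Prod.snd_sum]
  rfl

lemma cyc_ra (x : E g) : F.cyc (F.ra x) = 0 := by
  have h := F.Y_sum' x 0 (Nat.zero_le _)
  rw [Y_zero] at h
  have h1 : x = x + ∑ i : Fin F.n, F.ra x i • toR (F.v i) := by
    simpa using h
  rw [cyc_apply]
  exact left_eq_add.mp h1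

/-- polar form -/
noncomputable def Bf (a b : Fin F.n → ℝ) : ℝ :=
  (∑ i, ∑ j, if i < j then (a i * b j + b i * a j) * (om (F.v i) (F.v j) : ℝ) else 0) -
    2 * ∑ i, a i * b i

lemma form_add (a b : Fin F.n → ℝ) : F.form (a + b) = F.form a + F.form b + F.Bf a b := by
  unfold form Bf
  have h1 : ∀ i j : Fin F.n, (if i < j then (a + b) i * (a + b) j * (om (F.v i) (F.v j) : ℝ)
      else 0) = (if i < j then a i * a j * (om (F.v i) (F.v j) : ℝ) else 0) +
      (if i < j then b i * b j * (om (F.v i) (F.v j) : ℝ) else 0) +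
      if i < j then (a i * b j + b i * a j) * (om (F.v i) (F.v j) : ℝ) else 0 := by
    intro i j
    split_ifs
    · simp only [Pi.add_apply]; ring
    · ring
  have h2 : ∀ i : Fin F.n, (a + b) i ^ 2 = a i ^ 2 + b i ^ 2 + 2 * (a i * b i) := by
    intro i
    simp only [Pi.add_apply]; ring
  rw [sum_congr rfl fun i _ => sum_congr rfl fun j _ => h1 i j, sum_congr rfl fun i _ => h2 i]
  simp only [sum_add_distrib, mul_sum]
  ring

lemma omR_sum_left (x : E g) (b : Fin F.n → ℝ) (s : Finset (Fin F.n)) :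
    omR (∑ i ∈ s, b i • toR (F.v i)) x = ∑ i ∈ s, b i * omR (toR (F.v i)) x := by
  have h : omR (∑ i ∈ s, b i • toR (F.v i)) x =
      (omB g).flip x (∑ i ∈ s, b i • toR (F.v i)) := rfl
  rw [h, map_sum]
  refine sum_congr rfl fun i _ => ?_
  rw [map_smul]
  rfl

lemma omR_sum_right (x : E g) (b : Fin F.n → ℝ) (s : Finset (Fin F.n)) :
    omR x (∑ i ∈ s, b i • toR (F.v i)) = ∑ i ∈ s, b i * omR x (toR (F.v i)) := by
  have h : omR x (∑ i ∈ s, b i • toR (F.v i)) =
      (omB g) x (∑ i ∈ s, b i • toR (F.v i)) := rfl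
  rw [h, map_sum]
  refine sum_congr rfl fun i _ => ?_
  rw [map_smul]
  rfl

lemma Bf_ra (x : E g) {b : Fin F.n → ℝ} (hb : F.cyc b = 0) : F.Bf (F.ra x) b = 0 := by
  set a := F.ra x with ha
  have hskew : ∀ i j, (om (F.v i) (F.v j) : ℝ) = - (om (F.v j) (F.v i) : ℝ) := by
    intro i j
    rw [← omR_toR, ← omR_toR, omR_skew]
  -- first half
  have h1 : ∀ i : Fin F.n, ∑ j, (if i < j then a j * (om (F.v i) (F.v j) : ℝ) else 0) =
      a i - omR (toR (F.v i)) x := by
    intro i
    have e := F.Y_sum' x (i + 1) i.2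
    have e2 : a i = omR (toR (F.v i)) (F.Y (i + 1) x) := F.ra_apply x i
    rw [e, omR_add_right, ← ha, ← sum_filter, omR_sum_right, sum_filter] at e2
    rw [e2, add_sub_cancel_left]
    refine sum_congr rfl fun j _ => ?_
    by_cases hij : i < j
    · rw [if_pos hij, if_pos (by exact hij), omR_toR]
    · rw [if_neg hij, if_neg (by intro h; exact hij h)]
  have hT1 : ∑ i, ∑ j, (if i < j then b i * a j * (om (F.v i) (F.v j) : ℝ) else 0) =
      ∑ i, a i * b i := by
    have e : ∀ i, ∑ j, (if i < j then b i * a j * (om (F.v i) (F.v j) : ℝ) else 0) =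
        a i * b i - b i * omR (toR (F.v i)) x := by
      intro i
      have e2 : ∀ j, (if i < j then b i * a j * (om (F.v i) (F.v j) : ℝ) else 0) =
          b i * (if i < j then a j * (om (F.v i) (F.v j) : ℝ) else 0) := by
        intro j
        split_ifs
        · ring
        · ring
      rw [sum_congr rfl fun j _ => e2 j, ← mul_sum, h1 i]
      ring
    rw [sum_congr rfl fun i _ => e i, sum_sub_distrib]
    have e3 : ∑ i, b i * omR (toR (F.v i)) x = 0 := by
      rw [← F.omR_sum_left x b univ, ← cyc_apply, hb]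
      unfold omR
      simp
    rw [e3, sub_zero]
  have hT2 : ∑ i, ∑ j, (if i < j then a i * b j * (om (F.v i) (F.v j) : ℝ) else 0) =
      ∑ i, ∑ j, (if i < j then b i * a j * (om (F.v i) (F.v j) : ℝ) else 0) := by
    have e0 : ∑ i, ∑ j, a i * b j * (om (F.v i) (F.v j) : ℝ) = 0 := by
      refine sum_eq_zero fun i _ => ?_
      have e1 : ∀ j, a i * b j * (om (F.v i) (F.v j) : ℝ) =
          a i * (b j * omR (toR (F.v i)) (toR (F.v j))) := by
        intro j
        rw [omR_toR]; ring
      rw [sum_congr rfl fun j _ => e1 j, ← mul_sum, ← F.omR_sum_right _ b univ, ← cyc_apply, hb]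
      unfold omR
      simp
    have e1 : ∀ i j : Fin F.n, a i * b j * (om (F.v i) (F.v j) : ℝ) =
        (if i < j then a i * b j * (om (F.v i) (F.v j) : ℝ) else 0) +
        (if j < i then a i * b j * (om (F.v i) (F.v j) : ℝ) else 0) := by
      intro i j
      rcases lt_trichotomy i j with h | h | h
      · rw [if_pos h, if_neg (not_lt.mpr h.le), add_zero]
      · subst h
        have : (om (F.v i) (F.v i) : ℝ) = 0 := by
          rw [← omR_toR, omR_self]
        rw [this]
        simp
      · rw [if_neg (not_lt.mpr h.le), if_pos h, zero_add]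
    rw [sum_congr rfl fun i _ => sum_congr rfl fun j _ => e1 i j] at e0
    simp only [sum_add_distrib] at e0
    have e2 : ∑ i, ∑ j, (if j < i then a i * b j * (om (F.v i) (F.v j) : ℝ) else 0) =
        - ∑ i, ∑ j, (if i < j then b i * a j * (om (F.v i) (F.v j) : ℝ) else 0) := by
      rw [sum_comm, ← sum_neg_distrib]
      refine sum_congr rfl fun i _ => ?_
      rw [← sum_neg_distrib]
      refine sum_congr rfl fun j _ => ?_
      split_ifs
      · rw [hskew j i]; ring
      · simp
    rw [e2] at e0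
    linarith
  unfold Bf
  have e3 : ∀ i j : Fin F.n, (if i < j then (a i * b j + b i * a j) *
      (om (F.v i) (F.v j) : ℝ) else 0) =
      (if i < j then a i * b j * (om (F.v i) (F.v j) : ℝ) else 0) +
      (if i < j then b i * a j * (om (F.v i) (F.v j) : ℝ) else 0) := by
    intro i j
    split_ifs
    · ring
    · ring
  rw [sum_congr rfl fun i _ => sum_congr rfl fun j _ => e3 i j]
  simp only [sum_add_distrib]
  rw [hT2, hT1]
  ring

lemma form_smul (c : ℝ) (a : Fin F.n → ℝ) : F.form (c • a) = c ^ 2 * F.form a := by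
  unfold form
  rw [mul_sub, mul_sum, mul_sum]
  congr 1
  · refine sum_congr rfl fun i _ => ?_
    rw [mul_sum]
    refine sum_congr rfl fun j _ => ?_
    split_ifs
    · simp only [Pi.smul_apply, smul_eq_mul]; ring
    · ring
  · refine sum_congr rfl fun i _ => ?_
    simp only [Pi.smul_apply, smul_eq_mul]; ring

lemma form_zero : F.form 0 = 0 := by
  have := F.form_smul 0 0
  simpa using this

lemma form_ra (x : E g) : F.form (F.ra x) = 0 := by
  have h := F.Bf_ra x (F.cyc_ra x)
  have h1 := F.form_add (F.ra x) (F.ra x)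
  have h2 := F.form_smul 2 (F.ra x)
  rw [two_smul, h1, h] at h2
  linarith

lemma form_ra_add (x : E g) {b : Fin F.n → ℝ} (hb : F.cyc b = 0) :
    F.form (F.ra x + b) = F.form b := by
  rw [form_add, form_ra, F.Bf_ra x hb]
  ring

/-! ## Ranks -/

lemma orth_eq : F.orth = (omB g).orthogonal (LinearMap.range F.cyc) := by
  ext x
  rw [LinearMap.BilinForm.mem_orthogonal_iff]
  constructor
  · rintro h y ⟨a, rfl⟩
    change omR (F.cyc a) x = 0
    rw [cyc_apply, omR_sum_left]
    exact sum_eq_zero fun i _ => by rw [h i, mul_zero]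
  · intro h i
    have h1 := h (toR (F.v i)) ⟨Pi.single i 1, by
      rw [cyc_apply, sum_eq_single i]
      · simp
      · intro b _ hb
        rw [Pi.single_eq_of_ne hb, zero_smul]
      · intro h; exact absurd (mem_univ i) h⟩
    exact h1

lemma rank_eq : Module.finrank ℝ (LinearMap.range F.cyc) + F.b1 = 2 * g := by
  unfold b1
  rw [orth_eq, LinearMap.BilinForm.finrank_orthogonal omB_nondeg, finrank_E]
  have h4 : Module.finrank ℝ (LinearMap.range F.cyc) ≤ 2 * g := by
    rw [← finrank_E (g := g)]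
    exact Submodule.finrank_le _
  omega

lemma rank_ra : 2 * g ≤ Module.finrank ℝ (LinearMap.range F.ra) + F.b1 := by
  have h1 := F.ra.finrank_range_add_finrank_ker
  rw [finrank_E] at h1
  have h2 : LinearMap.ker F.ra ≤ F.orth := by
    intro x hx i
    rw [LinearMap.mem_ker] at hx
    have h3 := F.ra_apply x i
    rw [hx] at h3
    rw [F.Y_sum' x (i + 1) i.2, hx] at h3
    simp only [Pi.zero_apply, zero_smul, ite_self, sum_const_zero, add_zero] at h3
    exact h3.symm
  have h3 : Module.finrank ℝ (LinearMap.ker F.ra) ≤ F.b1 := Submodule.finrank_mono h2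
  omega

/-! ## Indices -/

/-- the set defining `posIndex` -/
def posSet : Set ℕ := {d : ℕ | ∃ f : (Fin d → ℝ) →ₗ[ℝ] (Fin F.n → ℝ),
    (∀ y, F.IsCycle (f y)) ∧ ∀ y, y ≠ 0 → 0 < F.form (f y)}

/-- the set defining `negIndex` -/
def negSet : Set ℕ := {d : ℕ | ∃ f : (Fin d → ℝ) →ₗ[ℝ] (Fin F.n → ℝ),
    (∀ y, F.IsCycle (f y)) ∧ ∀ y, y ≠ 0 → F.form (f y) < 0}

lemma posSet_bdd : BddAbove F.posSet := by
  refine ⟨F.n, ?_⟩
  rintro d ⟨f, _, hf⟩
  have hinj : Function.Injective f := by
    rw [← LinearMap.ker_eq_bot, LinearMap.ker_eq_bot']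
    intro y hy
    by_contra hne
    have := hf y hne
    rw [hy, F.form_zero] at this
    exact lt_irrefl _ this
  have := LinearMap.finrank_le_finrank_of_injective hinj
  simpa using this

lemma negSet_bdd : BddAbove F.negSet := by
  refine ⟨F.n, ?_⟩
  rintro d ⟨f, _, hf⟩
  have hinj : Function.Injective f := by
    rw [← LinearMap.ker_eq_bot, LinearMap.ker_eq_bot']
    intro y hy
    by_contra hne
    have := hf y hne
    rw [hy, F.form_zero] at this
    exact lt_irrefl _ this
  have := LinearMap.finrank_le_finrank_of_injective hinj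
  simpa using this

lemma isCycle_zero : F.IsCycle 0 := by
  intro k
  simp

lemma posSet_zero : 0 ∈ F.posSet := by
  refine ⟨0, fun y => ?_, fun y hy => absurd (Subsingleton.elim y 0) hy⟩
  exact F.isCycle_zero

lemma negSet_zero : 0 ∈ F.negSet := by
  refine ⟨0, fun y => ?_, fun y hy => absurd (Subsingleton.elim y 0) hy⟩
  exact F.isCycle_zero

lemma posIndex_mem : F.posIndex ∈ F.posSet := Nat.sSup_mem ⟨0, F.posSet_zero⟩ F.posSet_bdd

lemma negIndex_mem : F.negIndex ∈ F.negSet := Nat.sSup_mem ⟨0, F.negSet_zero⟩ F.negSet_bdd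

/-- `b^+ + b^-` is at most the rank of the form on the cycles -/
lemma index_le : F.posIndex + F.negIndex + 2 * (2 * g) ≤ F.n + 2 * F.b1 := by
  obtain ⟨f, hf1, hf2⟩ := F.posIndex_mem
  obtain ⟨h, hh1, hh2⟩ := F.negIndex_mem
  have hfc : ∀ y, F.cyc (f y) = 0 := fun y => (F.isCycle_iff _).1 (hf1 y)
  have hhc : ∀ y, F.cyc (h y) = 0 := fun y => (F.isCycle_iff _).1 (hh1 y)
  let Φ : ((Fin F.posIndex → ℝ) × (Fin F.negIndex → ℝ)) × LinearMap.range F.ra →ₗ[ℝ]
      (Fin F.n → ℝ) := (f.coprod h).coprod (LinearMap.range F.ra).subtype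
  have hΦ : ∀ y z w, Φ ((y, z), w) = f y + h z + (w : Fin F.n → ℝ) := fun y z w => rfl
  have hcod : ∀ q, Φ q ∈ LinearMap.ker F.cyc := by
    rintro ⟨⟨y, z⟩, w⟩
    rw [LinearMap.mem_ker, hΦ, map_add, map_add, hfc, hhc]
    obtain ⟨x, hx⟩ := w.2
    rw [← hx, F.cyc_ra]
    simp
  have hinj : Function.Injective (Φ.codRestrict (LinearMap.ker F.cyc) hcod) := by
    rw [← LinearMap.ker_eq_bot, LinearMap.ker_eq_bot']
    rintro ⟨⟨y, z⟩, w⟩ hq
    have hq' : f y + h z + (w : Fin F.n → ℝ) = 0 := congrArg Subtype.val hq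
    obtain ⟨x, hx⟩ := w.2
    have e1 : F.form (f y) = F.form (h z) := by
      have : f y = (-1 : ℝ) • (F.ra x + h z) := by
        rw [neg_one_smul, hx, eq_neg_iff_add_eq_zero, ← hq']
        ring
      rw [this, form_smul, F.form_ra_add x (hhc z)]
      ring
    have hy : y = 0 := by
      by_contra hne
      have h1 := hf2 y hne
      rw [e1] at h1
      by_cases hz : z = 0
      · rw [hz, map_zero, form_zero] at h1
        exact lt_irrefl _ h1
      · exact lt_irrefl _ (h1.trans (hh2 z hz))
    have hz : z = 0 := by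
      by_contra hne
      have h1 := hh2 z hne
      rw [← e1, hy, map_zero, form_zero] at h1
      exact lt_irrefl _ h1
    have hw : w = 0 := by
      rw [hy, hz, map_zero, map_zero, zero_add, zero_add] at hq'
      exact Subtype.ext hq'
    rw [hy, hz, hw]
    rfl
  have h1 := LinearMap.finrank_le_finrank_of_injective hinj
  rw [Module.finrank_prod, Module.finrank_prod] at h1
  have h2 := F.cyc.finrank_range_add_finrank_ker
  have h3 := F.rank_eq
  have h4 := F.rank_ra
  simp only [Module.finrank_fintype_fun_eq_card, Fintype.card_fin] at h1 h2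
  omega

/-- extension by zero -/
noncomputable def ext0 (I : Finset (Fin F.n)) : (I → ℝ) →ₗ[ℝ] (Fin F.n → ℝ) where
  toFun a := fun i => if h : i ∈ I then a ⟨i, h⟩ else 0
  map_add' a b := by
    funext i
    simp only [Pi.add_apply]
    split_ifs
    · rfl
    · simp
  map_smul' c a := by
    funext i
    simp only [Pi.smul_apply, RingHom.id_apply, smul_eq_mul]
    split_ifs
    · rfl
    · simp

lemma ext0_of_mem (I : Finset (Fin F.n)) (a : I → ℝ) {i : Fin F.n} (h : i ∈ I) :
    F.ext0 I a i = a ⟨i, h⟩ := dif_pos h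

lemma ext0_of_not (I : Finset (Fin F.n)) (a : I → ℝ) {i : Fin F.n} (h : i ∉ I) :
    F.ext0 I a i = 0 := dif_neg h

lemma form_ext0 (I : Finset (Fin F.n)) (hI : ∀ i ∈ I, ∀ j ∈ I, om (F.v i) (F.v j) = 0)
    (a : I → ℝ) (ha : a ≠ 0) : F.form (F.ext0 I a) < 0 := by
  unfold form
  have h1 : ∑ i, ∑ j, (if i < j then F.ext0 I a i * F.ext0 I a j *
      (om (F.v i) (F.v j) : ℝ) else 0) = 0 := by
    refine sum_eq_zero fun i _ => sum_eq_zero fun j _ => ?_
    split_ifs
    · by_cases hi : i ∈ I
      · by_cases hj : j ∈ I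
        · rw [hI i hi j hj]; simp
        · rw [F.ext0_of_not I a hj]; simp
      · rw [F.ext0_of_not I a hi]; simp
    · rfl
  rw [h1, zero_sub, neg_lt_zero]
  obtain ⟨⟨i, hi⟩, hai⟩ := Function.ne_iff.mp ha
  refine sum_pos' (fun j _ => sq_nonneg _) ⟨i, mem_univ _, ?_⟩
  rw [F.ext0_of_mem I a hi]
  have hai2 : a ⟨i, hi⟩ ≠ 0 := hai
  positivity

/-- pairwise orthogonal vanishing cycles give negative directions -/
lemma card_le_negIndex (I : Finset (Fin F.n))
    (hI : ∀ i ∈ I, ∀ j ∈ I, om (F.v i) (F.v j) = 0) : I.card ≤ F.negIndex + g := by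
  let cI : (I → ℝ) →ₗ[ℝ] E g := F.cyc ∘ₗ F.ext0 I
  have hiso : Module.finrank ℝ (LinearMap.range cI) ≤ g := by
    apply finrank_isotropic
    rintro _ ⟨a, rfl⟩ _ ⟨b, rfl⟩
    change omR (F.cyc (F.ext0 I a)) (F.cyc (F.ext0 I b)) = 0
    rw [cyc_apply, omR_sum_left]
    refine sum_eq_zero fun i _ => ?_
    by_cases hi : i ∈ I
    · rw [cyc_apply, omR_sum_right]
      rw [sum_eq_zero, mul_zero]
      intro j _
      by_cases hj : j ∈ I
      · rw [omR_toR, hI i hi j hj]; simp
      · rw [F.ext0_of_not I b hj, zero_mul]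
    · rw [F.ext0_of_not I a hi, zero_mul]
  have h1 := cI.finrank_range_add_finrank_ker
  have h2 : Module.finrank ℝ (I → ℝ) = I.card := by
    rw [Module.finrank_fintype_fun_eq_card, Fintype.card_coe]
  rw [h2] at h1
  have h3 : I.card - g ≤ Module.finrank ℝ (LinearMap.ker cI) := by omega
  obtain ⟨w, hw⟩ := exists_linearIndependent_of_le_finrank h3
  have hmem : I.card - g ∈ F.negSet := by
    refine ⟨F.ext0 I ∘ₗ (LinearMap.ker cI).subtype ∘ₗ Fintype.linearCombination ℝ w, ?_, ?_⟩
    · intro y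
      rw [isCycle_iff]
      exact (Fintype.linearCombination ℝ w y).2
    · intro y hy
      refine F.form_ext0 I hI _ ?_
      intro h0
      apply hy
      have h5 : Fintype.linearCombination ℝ w y = 0 := Subtype.ext h0
      have h6 := linearIndependent_iff_injective_fintypeLinearCombination.mp hw
      exact h6 (h5.trans (map_zero _).symm)
  have h7 : I.card - g ≤ F.negIndex := le_csSup F.negSet_bdd hmem
  omega

/-- the main inequality -/
theorem c1sq_le (I : Finset (Fin F.n)) (hI : ∀ i ∈ I, ∀ j ∈ I, om (F.v i) (F.v j) = 0) :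
    F.c1sq ≤ 5 * F.c2 - 6 * I.card + 6 * g - 12 + 6 * F.b1 := by
  have h1 := F.index_le
  have h2 := F.card_le_negIndex I hI
  unfold c1sq sig bPlus bMinus c2
  push_cast
  omega

end Fib

end Pool.Agent.Helper81.LFC
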