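import Mathlib
import Pool.Agent.Helper81.LFC.Main

/-!
# Lefschetz fibrations whose vanishing cycles have a large orthogonal subset

If one third of the vanishing cycles of a genus `g` Lefschetz fibration over the 2-sphere are
pairwise homologically orthogonal and `3 b_1 ≤ g + 2`, then the Bogomolov-Miyaoka-Yau inequality
holds; in particular if the vanishing cycles can be coloured with three colours such that
cycles of the same colour are orthogonal.
-/

namespace Pool.Agent.Results.MP_872606_gt.ColouredFibrations

open Pool.Agent.Helper21.HLF Pool.Agent.Helper81.LFC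

/-- For the homology data `F` of a genus `g` Lefschetz fibration over the 2-sphere and every set
`I` of pairwise orthogonal vanishing cycles `c_1^2 ≤ 5 c_2 - 6 |I| + 6 g - 12 + 6 b_1`. Hence
`c_1^2 ≤ 3 c_2` if `|I| ≥ (n - g - 2) / 3 + b_1`, and
`k c_1^2 ≤ (5 k - 6) c_2 - 24 (g - 1) + 6 k (g - 2 + b_1)` if the vanishing cycles can be coloured
with `k` colours such that cycles of the same colour are orthogonal. -/
theorem result (g : ℕ) (F : Fib g) :
    (∀ I : Finset (Fin F.n), (∀ i ∈ I, ∀ j ∈ I, om (F.v i) (F.v j) = 0) →
      F.c1sq ≤ 5 * F.c2 - 6 * I.card + 6 * g - 12 + 6 * F.b1 ∧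
      (F.n + 3 * F.b1 ≤ 3 * I.card + g + 2 → F.c1sq ≤ 3 * F.c2)) ∧
    (∀ (k : ℕ) (c : Fin F.n → Fin k), (∀ i j, c i = c j → om (F.v i) (F.v j) = 0) →
      k * F.c1sq ≤ (5 * k - 6) * F.c2 - 24 * (g - 1) + 6 * k * (g - 2 + F.b1)) := by
  refine ⟨?_, ?_⟩
  · intro I hI
    have h := F.c1sq_le I hI
    refine ⟨h, fun h1 => ?_⟩
    have h5 : (F.n : ℤ) = F.c2 - 4 + 4 * g := by
      unfold Fib.c2
      ring
    have h6 : (F.n : ℤ) + 3 * F.b1 ≤ 3 * I.card + g + 2 := by exact_mod_cast h1
    linarith
  · intro k c hc
    rcases Nat.eq_zero_or_pos k with hk | hk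
    · -- no colours: no vanishing cycles
      subst hk
      have hn : F.n = 0 := by
        by_contra hn
        exact (c ⟨0, Nat.pos_of_ne_zero hn⟩).elim0
      unfold Fib.c2
      rw [hn]
      push_cast
      ring_nf
      rfl
    · have : NeZero k := ⟨hk.ne'⟩
      -- some colour class has at least `n / k` elements
      have hex : ∃ a : Fin k, F.n ≤ k * (Finset.univ.filter fun i => c i = a).card := by
        by_contra hcon
        push Not at hcon
        have h1 : (Finset.univ : Finset (Fin F.n)).card =
            ∑ a : Fin k, (Finset.univ.filter fun i => c i = a).card :=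
          Finset.card_eq_sum_card_fiberwise (fun _ _ => Finset.mem_coe.2 (Finset.mem_univ _))
        rw [Finset.card_univ, Fintype.card_fin] at h1
        have h2 : ∑ a : Fin k, k * (Finset.univ.filter fun i => c i = a).card <
            ∑ _a : Fin k, F.n :=
          Finset.sum_lt_sum_of_nonempty Finset.univ_nonempty fun a _ => hcon a
        rw [← Finset.mul_sum, ← h1, Finset.sum_const, Finset.card_univ, Fintype.card_fin,
          smul_eq_mul] at h2
        exact lt_irrefl _ h2
      obtain ⟨a, ha⟩ := hex
      have h3 := F.c1sq_le (Finset.univ.filter fun i => c i = a) (by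
        intro i hi j hj
        rw [Finset.mem_filter] at hi hj
        exact hc i j (hi.2.trans hj.2.symm))
      set m := (Finset.univ.filter fun i => c i = a).card
      have h4 : (F.n : ℤ) ≤ k * m := by exact_mod_cast ha
      have h5 : (F.n : ℤ) = F.c2 - 4 + 4 * g := by
        unfold Fib.c2
        ring
      have hk' : (0 : ℤ) ≤ k := Int.natCast_nonneg k
      have h6 := mul_le_mul_of_nonneg_left h3 hk'
      nlinarith

end Pool.Agent.Results.MP_872606_gt.ColouredFibrations
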